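import Mathlib
import Pool.Agent.H990R2.CTFam

open Finset Filter Topology

namespace Pool.Agent.Results.MP_d1aba8_pr.ChainsNoTypicalCutoff

noncomputable section

/-- `Q` is the generator of an irreducible continuous-time Markov chain on the finite set `S` and
`π` is its stationary distribution. -/
structure IsChain {S : Type} [Fintype S] [DecidableEq S] (Q : Matrix S S ℝ) (π : S → ℝ) :
    Prop where
  /-- jump rates are nonnegative -/
  offdiag : ∀ x y, x ≠ y → 0 ≤ Q x y
  /-- rows sum to zero -/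
  row : ∀ x, ∑ y, Q x y = 0
  /-- irreducibility: any state can be reached from any other by jumps of positive rate -/
  irred : ∀ x y, Relation.ReflTransGen (fun a b => 0 < Q a b) x y
  nonneg : ∀ x, 0 ≤ π x
  total : ∑ x, π x = 1
  /-- stationarity `π Q = 0` -/
  stationary : ∀ y, ∑ x, π x * Q x y = 0

/-- `‖P_x(X_t ∈ ·) - π‖`, the total variation distance (half the `ℓ¹` distance), where the law of
`X_t` under `P_x` is the row `x` of the matrix exponential `exp(tQ)`. -/
def d {S : Type} [Fintype S] [DecidableEq S] (Q : Matrix S S ℝ) (π : S → ℝ) (x : S) (t : ℝ) : ℝ :=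
  (1 / 2 : ℝ) * ∑ y, |NormedSpace.exp (t • Q) x y - π y|

/-- `τ_x = inf {t ≥ 0 : ‖P_x(X_t ∈ ·) - π‖ ≤ 1/4}`. -/
def tau {S : Type} [Fintype S] [DecidableEq S] (Q : Matrix S S ℝ) (π : S → ℝ) (x : S) : ℝ :=
  sInf {t : ℝ | 0 ≤ t ∧ d Q π x t ≤ 1 / 4}

open Classical in
/-- `π`-measure of the set of states with the property `A`. -/
def prob {S : Type} [Fintype S] (π : S → ℝ) (A : S → Prop) : ℝ := ∑ x, if A x then π x else 0

/-- `m` is a median of `τ_x` when `x` is drawn from `π`. -/
def IsMedian {S : Type} [Fintype S] [DecidableEq S] (Q : Matrix S S ℝ) (π : S → ℝ) (m : ℝ) :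
    Prop :=
  1 / 2 ≤ prob π (fun x => tau Q π x ≤ m) ∧ 1 / 2 ≤ prob π (fun x => m ≤ tau Q π x)

/-- The relaxation time `τ₂ = 1/λ`, where `λ` is the smallest real part of a nonzero (complex)
eigenvalue of `-Q`. -/
def trel {S : Type} [Fintype S] [DecidableEq S] (Q : Matrix S S ℝ) : ℝ :=
  1 / sInf {r : ℝ | ∃ z ∈ spectrum ℂ (-(Q.map Complex.ofReal)), z ≠ 0 ∧ r = z.re}

/-- The two limits of Q1 for the parameter `ε`. -/
def CutoffAt (S : ℕ → Type) [∀ n, Fintype (S n)] [∀ n, DecidableEq (S n)]
    (Q : ∀ n, Matrix (S n) (S n) ℝ) (π : ∀ n, S n → ℝ) (τ : ℕ → ℝ) (ε : ℝ) : Prop :=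
  Tendsto (fun n => prob (π n) (fun x => 1 - ε < d (Q n) (π n) x ((1 - ε) * τ n))) atTop (𝓝 1) ∧
  Tendsto (fun n => prob (π n) (fun x => d (Q n) (π n) x ((1 + ε) * τ n) < ε)) atTop (𝓝 1)

section

variable {G : Type} [AddCommGroup G] [Fintype G] [DecidableEq G] {S : Finset G} {T : ℕ}

/-- uniform distribution -/
def unif (G : Type) [Fintype G] : G → ℝ := fun _ => 1 / (Fintype.card G : ℝ)

theorem tau_eq (P : Matrix G G ℝ) (hP : ∀ f : G → ℝ, P.mulVec f = Helper394.U S f) (x : G) :
    tau (P - 1) (unif G) x = H990R2.CT.tau0 P := by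
  simp only [tau, d, H990R2.CT.tau0, unif]
  have h : ∀ t : ℝ, ∑ y, |(NormedSpace.exp (t • (P - 1)) : Matrix G G ℝ) x y -
      1 / (Fintype.card G : ℝ)| =
      ∑ y, |H990R2.CT.H P t 0 y - 1 / (Fintype.card G : ℝ)| := fun t =>
    H990R2.CT.tv_translate hP t _ x
  simp only [h]

theorem prob_const (A : G → Prop) (p : Prop) [Decidable p]
    (hA : ∀ x, A x ↔ p) : prob (unif G) A = if p then 1 else 0 := by
  have hG : (0 : ℝ) < Fintype.card G := by exact_mod_cast Fintype.card_pos
  simp only [prob, unif, hA]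
  split_ifs
  · simp only [Finset.sum_const, Finset.card_univ, nsmul_eq_mul]
    field_simp
  · simp

theorem isChain (h : Helper394.Bad S T) (P : Matrix G G ℝ)
    (hP : ∀ f : G → ℝ, P.mulVec f = Helper394.U S f) : IsChain (P - 1) (unif G) := by
  have hG : (0 : ℝ) < Fintype.card G := by exact_mod_cast Fintype.card_pos
  have hc : (0 : ℝ) < S.card := by exact_mod_cast h.nonempty.card_pos
  have hrow : ∀ x, ∑ y, (P - 1) x y = 0 := by
    intro x
    simp only [Matrix.sub_apply]
    rw [Finset.sum_sub_distrib, H990R2.CT.P_row h hP]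
    simp [Matrix.one_apply]
  refine ⟨?_, hrow, ?_, ?_, ?_, ?_⟩
  · intro x y hxy
    rw [Matrix.sub_apply, Matrix.one_apply_ne hxy, sub_zero, H990R2.CT.P_entry hP]
    split_ifs <;> positivity
  · intro x y
    refine h.closed {y | Relation.ReflTransGen (fun a b => 0 < (P - 1) a b) x y} x
      Relation.ReflTransGen.refl ?_ y
    intro y hy s hs
    refine Relation.ReflTransGen.tail hy ?_
    have hne : y ≠ y + s := by
      intro he
      have : s = 0 := by
        have := left_eq_add.mp he
        exact this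
      rw [this] at hs
      exact h.zero hs
    rw [Matrix.sub_apply, Matrix.one_apply_ne hne, sub_zero, H990R2.CT.P_entry hP,
      add_sub_cancel_left, if_pos hs]
    positivity
  · intro x; rw [unif]; positivity
  · simp only [unif, Finset.sum_const, Finset.card_univ, nsmul_eq_mul]
    field_simp
  · intro y
    have h1 : ∀ x, (P - 1) x y = (P - 1) y x := by
      intro x
      rw [Matrix.sub_apply, Matrix.sub_apply, H990R2.CT.P_symm h hP x y]
      simp [Matrix.one_apply, eq_comm]
    simp only [unif, h1]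
    rw [← Finset.mul_sum, hrow, mul_zero]

end

/-- There is a sequence of finite irreducible continuous-time Markov chains (even reversible ones,
with symmetric generators) with `τ/τ₂ → ∞`, the median `τ` being unique, for which the two limits
of Q1 do not both hold for some `ε ∈ (0,1)`. -/
theorem result :
    ∃ (S : ℕ → Type) (_ : ∀ n, Fintype (S n)) (_ : ∀ n, DecidableEq (S n))
      (Q : ∀ n, Matrix (S n) (S n) ℝ) (π : ∀ n, S n → ℝ) (τ : ℕ → ℝ),
      (∀ n, IsChain (Q n) (π n)) ∧
      (∀ n x y, Q n x y = Q n y x) ∧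
      Tendsto (fun n => Fintype.card (S n)) atTop atTop ∧
      (∀ n m, IsMedian (Q n) (π n) m ↔ m = τ n) ∧
      Tendsto (fun n => τ n / trel (Q n)) atTop atTop ∧
      ∃ ε : ℝ, 0 < ε ∧ ε < 1 ∧ ¬ CutoffAt S Q π τ ε := by
  choose N hN S hTN hS using fun n : ℕ => Helper394.exists_bad (n + 64) (by omega)
  let P : ∀ n, Matrix (ZMod (N n)) (ZMod (N n)) ℝ := fun n =>
    H990R2.CT.srw (S n) (hS n).zero (hS n).neg
  have hP : ∀ n, ∀ f : ZMod (N n) → ℝ, (P n).mulVec f = Helper394.U (S n) f :=
    fun n f => H990R2.CT.srw_mulVec (S n) _ _ f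
  have hτ : ∀ n : ℕ, ((n : ℝ) + 64) / 2 ≤ H990R2.CT.tau0 (P n) := by
    intro n
    have := H990R2.CT.tau0_ge (hS n) (by omega) (hP n)
    push_cast at this
    exact this
  refine ⟨fun n => ZMod (N n), fun n => inferInstance, fun n => inferInstance,
    fun n => P n - 1, fun n => unif (ZMod (N n)), fun n => H990R2.CT.tau0 (P n),
    fun n => isChain (hS n) (P n) (hP n), ?_, ?_, ?_, ?_, 1 / 2000, by norm_num, by norm_num, ?_⟩
  · intro n x y
    change (P n - 1) x y = (P n - 1) y x
    rw [Matrix.sub_apply, Matrix.sub_apply, H990R2.CT.P_symm (hS n) (hP n) x y]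
    simp [Matrix.one_apply, eq_comm]
  · refine tendsto_atTop_mono (fun n => ?_) tendsto_id
    rw [ZMod.card]
    have := hTN n
    simp only [id]
    omega
  · intro n m
    classical
    rw [IsMedian, prob_const _ (H990R2.CT.tau0 (P n) ≤ m)
        (fun x => by rw [tau_eq (P n) (hP n)]),
      prob_const _ (m ≤ H990R2.CT.tau0 (P n)) (fun x => by rw [tau_eq (P n) (hP n)])]
    constructor
    · rintro ⟨h1, h2⟩
      have h3 : H990R2.CT.tau0 (P n) ≤ m := by
        by_contra hcon
        rw [if_neg hcon] at h1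
        norm_num at h1
      have h4 : m ≤ H990R2.CT.tau0 (P n) := by
        by_contra hcon
        rw [if_neg hcon] at h2
        norm_num at h2
      exact le_antisymm h4 h3
    · rintro rfl
      rw [if_pos le_rfl]
      norm_num
  · have h5 : Tendsto (fun n : ℕ => (n : ℝ) / 8) atTop atTop :=
      tendsto_natCast_atTop_atTop.atTop_div_const (by norm_num)
    refine tendsto_atTop_mono (fun n => ?_) h5
    have hge : 1 / 4 ≤ sInf {r : ℝ | ∃ z ∈ spectrum ℂ (-((P n - 1).map Complex.ofReal)),
        z ≠ 0 ∧ r = z.re} := by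
      obtain ⟨z, hz, hz0⟩ := H990R2.CT.specC_nonempty (hS n) (hP n)
      apply le_csInf
      · exact ⟨z.re, z, hz, hz0, rfl⟩
      · rintro b ⟨w, hw, hw0, rfl⟩
        exact H990R2.CT.specC (hS n) (hP n) w hw hw0
    have h6 : 0 < trel (P n - 1) := one_div_pos.mpr (by linarith)
    have h7 : trel (P n - 1) ≤ 4 := by
      rw [trel, div_le_iff₀ (by linarith)]
      linarith
    have h8 := hτ n
    have hn : (0 : ℝ) ≤ n := Nat.cast_nonneg n
    rw [div_le_div_iff₀ (by norm_num) h6]
    nlinarith
  · rintro ⟨h1, _⟩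
    have h2 : ∀ n, prob (unif (ZMod (N n))) (fun x => 1 - 1 / 2000 <
        d (P n - 1) (unif (ZMod (N n))) x ((1 - 1 / 2000) * H990R2.CT.tau0 (P n))) = 0 := by
      intro n
      have h3 := prob_const (G := ZMod (N n)) (fun x => 1 - 1 / 2000 <
        d (P n - 1) (unif (ZMod (N n))) x ((1 - 1 / 2000) * H990R2.CT.tau0 (P n))) False
        (fun x => by
          rw [iff_false, not_lt]
          exact H990R2.CT.tv_upper (hS n) (by omega) (hP n)
            (t := (1 - 1 / 2000) * H990R2.CT.tau0 (P n)) (by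
              have := hτ n
              have hn : (0 : ℝ) ≤ n := Nat.cast_nonneg n
              push_cast
              linarith) x)
      rw [if_neg not_false] at h3
      exact h3
    rw [tendsto_congr h2] at h1
    have := tendsto_nhds_unique h1 tendsto_const_nhds
    norm_num at this

end

end Pool.Agent.Results.MP_d1aba8_pr.ChainsNoTypicalCutoff
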